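import Pool.Agent.Lib.ThmQ.Dart

/-! # Kill trails at class level (S5, MP_c95763_co), after helper93: cut calculus for darts

`ds` darts, `al` a fixed point free involution of `ds`, `nd d` the node of `d`.
`dct al nd ds W` (from `ThmQ`) is the number of edges leaving the set of nodes `W`. -/

set_option autoImplicit false

namespace KT

open Finset Classical ThmQ

variable {N D : Type*}

/-- a system of darts -/
structure Sys (al : D → D) (ds : Finset D) : Prop where
  mem : ∀ d ∈ ds, al d ∈ ds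
  inv : ∀ d ∈ ds, al (al d) = d
  ne : ∀ d ∈ ds, al d ≠ d

variable {al : D → D} {ds : Finset D} {nd : D → N}

theorem dct_sum (W : Finset N) :
    dct al nd ds W = ∑ d ∈ ds, if nd d ∈ W ∧ nd (al d) ∉ W then 1 else 0 := by
  unfold dct
  rw [card_filter]

theorem Sys.dct_rev (h : Sys al ds) (W : Finset N) :
    dct al nd ds W = ∑ d ∈ ds, if nd d ∉ W ∧ nd (al d) ∈ W then 1 else 0 := by
  rw [dct_sum]
  refine sum_bij (fun d _ => al d) (fun d hd => h.mem d hd) ?_ ?_ ?_
  · intro a ha b hb hab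
    rw [← h.inv a ha, ← h.inv b hb, hab]
  · intro b hb
    exact ⟨al b, h.mem b hb, h.inv b hb⟩
  · intro d hd
    rw [h.inv d hd]
    refine if_congr ?_ rfl rfl
    tauto

/-- twice the degree -/
theorem Sys.two_dct (h : Sys al ds) (W : Finset N) :
    2 * dct al nd ds W = ∑ d ∈ ds,
      ((if nd d ∈ W ∧ nd (al d) ∉ W then 1 else 0) + if nd d ∉ W ∧ nd (al d) ∈ W then 1 else 0) := by
  rw [sum_add_distrib, ← dct_sum, ← h.dct_rev]
  ring

/-- submodularity, with the edges between the differences -/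
theorem Sys.sub (h : Sys al ds) (W X : Finset N) :
    dct al nd ds (W ∩ X) + dct al nd ds (W ∪ X) +
      (ds.filter fun d => nd d ∈ W ∧ nd d ∉ X ∧ nd (al d) ∈ X ∧ nd (al d) ∉ W).card * 2 =
      dct al nd ds W + dct al nd ds X := by
  have h1 : 2 * (dct al nd ds (W ∩ X) + dct al nd ds (W ∪ X) +
      (ds.filter fun d => nd d ∈ W ∧ nd d ∉ X ∧ nd (al d) ∈ X ∧ nd (al d) ∉ W).card * 2) =
      2 * (dct al nd ds W + dct al nd ds X) := by
    have e1 : (ds.filter fun d => nd d ∈ W ∧ nd d ∉ X ∧ nd (al d) ∈ X ∧ nd (al d) ∉ W).card =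
        ∑ d ∈ ds, if nd d ∈ W ∧ nd d ∉ X ∧ nd (al d) ∈ X ∧ nd (al d) ∉ W then 1 else 0 := by
      rw [card_filter]
    have e2 : (ds.filter fun d => nd d ∈ W ∧ nd d ∉ X ∧ nd (al d) ∈ X ∧ nd (al d) ∉ W).card =
        ∑ d ∈ ds, if nd d ∈ X ∧ nd d ∉ W ∧ nd (al d) ∈ W ∧ nd (al d) ∉ X then 1 else 0 := by
      rw [e1]
      refine sum_bij (fun d _ => al d) (fun d hd => h.mem d hd) ?_ ?_ ?_
      · intro a ha b hb hab
        rw [← h.inv a ha, ← h.inv b hb, hab]
      · intro b hb
        exact ⟨al b, h.mem b hb, h.inv b hb⟩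
      · intro d hd
        rw [h.inv d hd]
        refine if_congr ?_ rfl rfl
        tauto
    have e3 : 2 * ((ds.filter fun d => nd d ∈ W ∧ nd d ∉ X ∧ nd (al d) ∈ X ∧ nd (al d) ∉ W).card * 2)
        = ∑ d ∈ ds, ((if nd d ∈ W ∧ nd d ∉ X ∧ nd (al d) ∈ X ∧ nd (al d) ∉ W then 2 else 0) +
          if nd d ∈ X ∧ nd d ∉ W ∧ nd (al d) ∈ W ∧ nd (al d) ∉ X then 2 else 0) := by
      have f1 : ∀ (p : D → Prop) [DecidablePred p], (∑ d ∈ ds, if p d then 2 else 0) =
          2 * ∑ d ∈ ds, if p d then 1 else 0 := by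
        intro p _
        rw [mul_sum]
        refine sum_congr rfl fun d _ => ?_
        split_ifs <;> rfl
      rw [sum_add_distrib, f1, f1, ← e1, ← e2]
      ring
    rw [mul_add, mul_add, e3, mul_add, h.two_dct, h.two_dct, h.two_dct, h.two_dct, ← sum_add_distrib,
      ← sum_add_distrib, ← sum_add_distrib]
    refine sum_congr rfl fun d _ => ?_
    simp only [mem_inter, mem_union]
    by_cases a : nd d ∈ W <;> by_cases b : nd d ∈ X <;> by_cases c : nd (al d) ∈ W <;>
      by_cases e : nd (al d) ∈ X <;> simp [a, b, c, e]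
  omega

/-- posimodularity, with the edges from the intersection to the outside -/
theorem Sys.posi (h : Sys al ds) (W X : Finset N) :
    dct al nd ds (W \ X) + dct al nd ds (X \ W) +
      (ds.filter fun d => nd d ∈ W ∧ nd d ∈ X ∧ nd (al d) ∉ X ∧ nd (al d) ∉ W).card * 2 =
      dct al nd ds W + dct al nd ds X := by
  have h1 : 2 * (dct al nd ds (W \ X) + dct al nd ds (X \ W) +
      (ds.filter fun d => nd d ∈ W ∧ nd d ∈ X ∧ nd (al d) ∉ X ∧ nd (al d) ∉ W).card * 2) =
      2 * (dct al nd ds W + dct al nd ds X) := by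
    have e1 : (ds.filter fun d => nd d ∈ W ∧ nd d ∈ X ∧ nd (al d) ∉ X ∧ nd (al d) ∉ W).card =
        ∑ d ∈ ds, if nd d ∈ W ∧ nd d ∈ X ∧ nd (al d) ∉ X ∧ nd (al d) ∉ W then 1 else 0 := by
      rw [card_filter]
    have e2 : (ds.filter fun d => nd d ∈ W ∧ nd d ∈ X ∧ nd (al d) ∉ X ∧ nd (al d) ∉ W).card =
        ∑ d ∈ ds, if nd d ∉ X ∧ nd d ∉ W ∧ nd (al d) ∈ W ∧ nd (al d) ∈ X then 1 else 0 := by
      rw [e1]
      refine sum_bij (fun d _ => al d) (fun d hd => h.mem d hd) ?_ ?_ ?_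
      · intro a ha b hb hab
        rw [← h.inv a ha, ← h.inv b hb, hab]
      · intro b hb
        exact ⟨al b, h.mem b hb, h.inv b hb⟩
      · intro d hd
        rw [h.inv d hd]
        refine if_congr ?_ rfl rfl
        tauto
    have e3 : 2 * ((ds.filter fun d => nd d ∈ W ∧ nd d ∈ X ∧ nd (al d) ∉ X ∧ nd (al d) ∉ W).card * 2)
        = ∑ d ∈ ds, ((if nd d ∈ W ∧ nd d ∈ X ∧ nd (al d) ∉ X ∧ nd (al d) ∉ W then 2 else 0) +
          if nd d ∉ X ∧ nd d ∉ W ∧ nd (al d) ∈ W ∧ nd (al d) ∈ X then 2 else 0) := by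
      have f1 : ∀ (p : D → Prop) [DecidablePred p], (∑ d ∈ ds, if p d then 2 else 0) =
          2 * ∑ d ∈ ds, if p d then 1 else 0 := by
        intro p _
        rw [mul_sum]
        refine sum_congr rfl fun d _ => ?_
        split_ifs <;> rfl
      rw [sum_add_distrib, f1, f1, ← e1, ← e2]
      ring
    rw [mul_add, mul_add, e3, mul_add, h.two_dct, h.two_dct, h.two_dct, h.two_dct, ← sum_add_distrib,
      ← sum_add_distrib, ← sum_add_distrib]
    refine sum_congr rfl fun d _ => ?_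
    simp only [mem_sdiff]
    by_cases a : nd d ∈ W <;> by_cases b : nd d ∈ X <;> by_cases c : nd (al d) ∈ W <;>
      by_cases e : nd (al d) ∈ X <;> simp [a, b, c, e]
  omega

/-- complement: only nodes with darts matter -/
theorem Sys.compl (h : Sys al ds) (W : Finset N) :
    dct al nd ds ((ds.image nd) \ W) = dct al nd ds W := by
  rw [dct_sum, h.dct_rev]
  refine sum_congr rfl fun d hd => if_congr ?_ rfl rfl
  have m1 : nd d ∈ ds.image nd := mem_image_of_mem _ hd
  have m2 : nd (al d) ∈ ds.image nd := mem_image_of_mem _ (h.mem d hd)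
  rw [mem_sdiff, mem_sdiff]
  tauto

/-- parity: sum of the degrees of the nodes -/
theorem Sys.parity (h : Sys al ds) (W : Finset N) :
    (dct al nd ds W : ZMod 2) = ∑ v ∈ W, (dct al nd ds {v} : ZMod 2) := by
  obtain ⟨R, hRs, hR⟩ := exists_rep h.mem h.inv h.ne
  have hct : ∀ W, ct nd (fun d => nd (al d)) R W = dct al nd ds W := by
    intro W
    rw [← ct_rep h.mem h.inv hRs hR (Subset.refl ds) h.mem W, inter_eq_right.2 hRs]
  rw [← hct, ct_parity]
  refine sum_congr rfl fun v _ => ?_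
  rw [hct]

theorem Sys.even_of (h : Sys al ds) {X : Finset N} (hX : ∀ v ∈ X, Even (dct al nd ds {v})) :
    Even (dct al nd ds X) := by
  rw [even_iff_zmod, h.parity]
  exact sum_eq_zero fun v hv => even_iff_zmod.1 (hX v hv)

theorem Sys.par_inter_union (h : Sys al ds) (W X : Finset N) :
    (dct al nd ds (W ∩ X) + dct al nd ds (W ∪ X)) % 2 = (dct al nd ds W + dct al nd ds X) % 2 := by
  have := h.sub (nd := nd) W X
  omega

theorem Sys.par_sdiff (h : Sys al ds) (W X : Finset N) :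
    (dct al nd ds (W \ X) + dct al nd ds (W ∩ X)) % 2 = dct al nd ds W % 2 := by
  have h1 : (dct al nd ds W : ZMod 2) = (dct al nd ds (W \ X) : ZMod 2) + dct al nd ds (W ∩ X) := by
    rw [h.parity W, h.parity (W \ X), h.parity (W ∩ X), ← sum_union (disjoint_sdiff_inter W X),
      sdiff_union_inter]
  have h2 : ((dct al nd ds (W \ X) + dct al nd ds (W ∩ X) : ℕ) : ZMod 2) =
      (dct al nd ds W : ZMod 2) := by
    push_cast
    exact h1.symm
  exact (ZMod.natCast_eq_natCast_iff' _ _ _).1 h2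

end KT
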