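import Pool.Agent.Lib.KT.Split

/-! # Kill trails: an admissible pair of opposite colours exists -/

set_option autoImplicit false

namespace KT

open Finset Classical ThmQ

variable {N D : Type*} {al : D → D} {ds : Finset D} {nd : D → N}

theorem exists_max {α : Type*} {P : α → Prop} (f : α → ℕ) (b : ℕ) (hb : ∀ a, P a → f a ≤ b)
    (hne : ∃ a, P a) : ∃ a, P a ∧ ∀ a', P a' → f a' ≤ f a := by
  obtain ⟨a0, h0⟩ := hne
  let Q : ℕ → Prop := fun n => ∃ a, P a ∧ f a = n
  have h1 : Q (f a0) := ⟨a0, h0, rfl⟩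
  have h2 := Nat.findGreatest_spec (P := Q) (hb a0 h0) h1
  obtain ⟨a, ha, hfa⟩ := h2
  refine ⟨a, ha, fun a' ha' => ?_⟩
  rw [hfa]
  exact Nat.le_findGreatest (hb a' ha') ⟨a', ha', rfl⟩

/-- darts at `E` of a given colour -/
noncomputable def cdt (ds : Finset D) (nd : D → N) (col : D → Bool) (E : N) (c : Bool) : Finset D :=
  ds.filter fun d => nd d = E ∧ col d = c

theorem mem_cdt {col : D → Bool} {E : N} {c : Bool} {d : D} :
    d ∈ cdt ds nd col E c ↔ d ∈ ds ∧ nd d = E ∧ col d = c := by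
  unfold cdt
  rw [mem_filter]

/-- some opposite pair is not blocked -/
theorem exists_nblk (h : Sys al ds) {q : N} (hH : Hyp al ds nd q) {E : N}
    (hEv : Even (dct al nd ds {E})) {col : D → Bool}
    (hcol : (cdt ds nd col E true).card = (cdt ds nd col E false).card)
    (hne : ∃ d ∈ ds, nd d = E) :
    ∃ x ∈ ds, ∃ y ∈ ds, nd x = E ∧ nd y = E ∧ col x ≠ col y ∧ ¬ Blk5 al ds nd E x y := by
  by_contra hn
  have hall : ∀ x ∈ ds, ∀ y ∈ ds, nd x = E → nd y = E → col x ≠ col y → Blk5 al ds nd E x y := by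
    intro x hx y hy nx ny hc
    by_contra hb
    exact hn ⟨x, hx, y, hy, nx, ny, hc, hb⟩
  -- both colours occur
  have hboth : ∀ c, ∃ d ∈ ds, nd d = E ∧ col d = c := by
    obtain ⟨d0, hd0, hd0E⟩ := hne
    have h1 : 0 < (cdt ds nd col E (col d0)).card := card_pos.2 ⟨d0, mem_cdt.2 ⟨hd0, hd0E, rfl⟩⟩
    have h2 : ∀ c, 0 < (cdt ds nd col E c).card := by
      intro c
      cases hc : col d0 <;> rw [hc] at h1 <;> cases c <;> omega
    intro c
    obtain ⟨d, hd⟩ := card_pos.1 (h2 c)
    exact ⟨d, mem_cdt.1 hd⟩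
  let P : Finset N → Prop := fun W => dct al nd ds W = 5 ∧ E ∉ W ∧
    ∀ c, ∃ d ∈ ds, nd d = E ∧ col d = c ∧ nd (al d) ∈ W
  let S : Finset N → Finset D := fun W => ds.filter fun d => nd d = E ∧ nd (al d) ∈ W
  have hP : ∃ W, P W := by
    obtain ⟨x, hx, nx, cx⟩ := hboth true
    obtain ⟨y, hy, ny, cy⟩ := hboth false
    obtain ⟨W, h1, h2, h3, h4⟩ := hall x hx y hy nx ny (by rw [cx, cy]; decide)
    refine ⟨W, h1, h2, fun c => ?_⟩
    cases c with
    | true => exact ⟨x, hx, nx, cx, h3⟩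
    | false => exact ⟨y, hy, ny, cy, h4⟩
  obtain ⟨W, ⟨h5, hEW, hWc⟩, hmax⟩ := exists_max (fun W => (S W).card) ds.card
    (fun W _ => card_filter_le _ _) hP
  -- a dart at `E` not going to `W`
  obtain ⟨y, hy, ny, hyW⟩ : ∃ y ∈ ds, nd y = E ∧ nd (al y) ∉ W := by
    by_contra hn2
    have hin : ∀ d ∈ ds, nd d = E → nd (al d) ∈ W := by
      intro d hd hdE
      by_contra h1
      exact hn2 ⟨d, hd, hdE, h1⟩
    have h1 := h.sub (nd := nd) W {E}
    have h2 : W ∩ {E} = ∅ := by
      rw [inter_singleton_of_notMem hEW]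
    have h3 : dct al nd ds (∅ : Finset N) = 0 := by
      unfold dct
      rw [card_eq_zero, filter_eq_empty_iff]
      rintro d _ ⟨h4, _⟩
      exact notMem_empty _ h4
    rw [h2, h3, zero_add, h5] at h1
    have h6 : dct al nd ds {E} ≤ (ds.filter fun d => nd d ∈ W ∧ nd d ∉ ({E} : Finset N) ∧
        nd (al d) ∈ ({E} : Finset N) ∧ nd (al d) ∉ W).card := by
      unfold dct
      refine card_le_card_of_injOn al (fun d hd => ?_) (fun a ha b hb hab => ?_)
      · rw [mem_coe, mem_filter, mem_singleton] at hd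
        have h7 := hin d hd.1 hd.2.1
        rw [mem_coe, mem_filter, mem_singleton, mem_singleton, h.inv d hd.1, hd.2.1]
        exact ⟨h.mem d hd.1, h7, fun e => hEW (e ▸ h7), rfl, hEW⟩
      · rw [mem_coe, mem_filter] at ha hb
        exact h.inj ha.1 hb.1 hab
    have h7 : 1 ≤ dct al nd ds {E} := by
      obtain ⟨d0, hd0, hd0E⟩ := hne
      refine mem_cut hd0 (by rw [hd0E]; exact mem_singleton_self _) ?_
      rw [mem_singleton]
      exact fun e => hEW (e ▸ hin d0 hd0 hd0E)
    have h8 : Odd (dct al nd ds (W ∪ {E})) := by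
      rw [Nat.odd_iff]
      rw [Nat.even_iff] at hEv
      omega
    have h9 := hH.five _ h8
    omega
  -- a dart of the other colour going to `W`
  obtain ⟨x, hx, nx, cx, hxW⟩ := hWc (!(col y))
  have hcxy : col x ≠ col y := by
    rw [cx]
    cases col y <;> decide
  obtain ⟨W', h5', hEW', hxW', hyW'⟩ := hall x hx y hy nx ny hcxy
  rcases Nat.even_or_odd (dct al nd ds (W ∩ W')) with hev | hod
  · have h1 := h.posi (nd := nd) W W'
    have p1 := h.par_sdiff (nd := nd) W W'
    have p2 := h.par_sdiff (nd := nd) W' W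
    rw [inter_comm] at p2
    have o1 : Odd (dct al nd ds (W \ W')) := by
      rw [Nat.odd_iff]
      rw [Nat.even_iff] at hev
      omega
    have o2 : Odd (dct al nd ds (W' \ W)) := by
      rw [Nat.odd_iff]
      rw [Nat.even_iff] at hev
      omega
    have f1 := hH.five _ o1
    have f2 := hH.five _ o2
    have h2 : 1 ≤ (ds.filter fun d => nd d ∈ W ∧ nd d ∈ W' ∧ nd (al d) ∉ W' ∧ nd (al d) ∉ W).card := by
      refine card_pos.2 ⟨al x, mem_filter.2 ⟨h.mem x hx, hxW, hxW', ?_, ?_⟩⟩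
      · rw [h.inv x hx, nx]
        exact hEW'
      · rw [h.inv x hx, nx]
        exact hEW
    omega
  · have h1 := h.sub (nd := nd) W W'
    have o1 : Odd (dct al nd ds (W ∪ W')) := by
      rw [Nat.odd_iff] at hod ⊢
      omega
    have f1 := hH.five _ o1
    have f2 := hH.five _ hod
    have hU : P (W ∪ W') := by
      refine ⟨by omega, ?_, fun c => ?_⟩
      · rw [mem_union]
        rintro (h | h)
        · exact hEW h
        · exact hEW' h
      · obtain ⟨d, k1, k2, k3, k4⟩ := hWc c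
        exact ⟨d, k1, k2, k3, mem_union_left _ k4⟩
    have h2 := hmax _ hU
    have h3 : (S W).card < (S (W ∪ W')).card := by
      refine card_lt_card ⟨fun d hd => ?_, fun hs => ?_⟩
      · have := mem_filter.1 hd
        exact mem_filter.2 ⟨this.1, this.2.1, mem_union_left _ this.2.2⟩
      · have h4 : y ∈ S (W ∪ W') := mem_filter.2 ⟨hy, ny, mem_union_right _ hyW'⟩
        exact hyW (mem_filter.1 (hs h4)).2.2
    have h2' : (S (W ∪ W')).card ≤ (S W).card := h2
    omega

/-- an admissible pair -/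
theorem exists_pair (h : Sys al ds) {q : N} (hH : Hyp al ds nd q) {E : N} (hEq : E ≠ q)
    (hEv : Even (dct al nd ds {E})) {col : D → Bool}
    (hcol : (cdt ds nd col E true).card = (cdt ds nd col E false).card)
    (hne : ∃ d ∈ ds, nd d = E) :
    ∃ x ∈ ds, ∃ y ∈ ds, nd x = E ∧ nd y = E ∧ col x ≠ col y ∧
      Hyp (spA al x y) (spD ds x y) nd q := by
  obtain ⟨x, hx, y, hy, nx, ny, hc, hb⟩ := exists_nblk h hH hEv hcol hne
  have hxy : x ≠ y := fun e => hc (by rw [e])
  by_cases ho : ∃ X, Off al ds nd q E x y X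
  · obtain ⟨X, ho⟩ := ho
    obtain ⟨z, hz, nz, zx, zy⟩ := ho.exists_third h hH hEq hEv hx hy hxy nx ny
    have hcc : ∀ c c', (cdt ds nd col E c).card = (cdt ds nd col E c').card := by
      intro c c'
      cases c <;> cases c' <;> omega
    obtain ⟨w, hw, nw, wy, cw⟩ : ∃ w ∈ ds, nd w = E ∧ w ≠ y ∧ col w = col y := by
      by_cases hzc : col z = col y
      · exact ⟨z, hz, nz, zy, hzc⟩
      · have hzx : col z = col x := by
          cases h1 : col z <;> cases h2 : col x <;> cases h3 : col y <;> simp_all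
        have h1 : 1 < (cdt ds nd col E (col x)).card :=
          one_lt_card.2 ⟨x, mem_cdt.2 ⟨hx, nx, rfl⟩, z, mem_cdt.2 ⟨hz, nz, hzx⟩, zx.symm⟩
        rw [hcc _ (col y)] at h1
        obtain ⟨w, hw, hwy⟩ := exists_mem_ne h1 y
        have := mem_cdt.1 hw
        exact ⟨w, this.1, this.2.1, hwy, this.2.2⟩
    have hxw : col x ≠ col w := by
      rw [cw]
      exact hc
    have wx : w ≠ x := fun e => hxw (by rw [e])
    refine ⟨x, hx, w, hw, nx, nw, hxw, ?_, ?_⟩
    · exact five_split h hH hx hw wx.symm nx nw (ho.noblk h hH hx hy hxy nx ny hw nw wx wy)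
    · exact con_split h hH hx hw wx.symm nx nw
        fun X' ho' => ho.nooff h hx hy hxy nx ny hw nw wx wy ho'
  · refine ⟨x, hx, y, hy, nx, ny, hc, ?_, ?_⟩
    · exact five_split h hH hx hy hxy nx ny hb
    · exact con_split h hH hx hy hxy nx ny fun X hX => ho ⟨X, hX⟩

end KT
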