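import Pool.Agent.Lib.KT.Cut

/-! # Kill trails: splitting a pair of darts of opposite colours -/

set_option autoImplicit false

namespace KT

open Finset Classical ThmQ

variable {N D : Type*} {al : D → D} {ds : Finset D} {nd : D → N}

/-- the new involution -/
noncomputable def spA (al : D → D) (x y d : D) : D :=
  if d = al x then al y else if d = al y then al x else al d

/-- the remaining darts -/
noncomputable def spD (ds : Finset D) (x y : D) : Finset D := (ds.erase x).erase y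

theorem mem_spD {x y d : D} : d ∈ spD ds x y ↔ d ≠ y ∧ d ≠ x ∧ d ∈ ds := by
  unfold spD
  rw [mem_erase, mem_erase]

theorem Sys.inj (h : Sys al ds) {a b : D} (ha : a ∈ ds) (hb : b ∈ ds) (hab : al a = al b) :
    a = b := by
  rw [← h.inv a ha, ← h.inv b hb, hab]

theorem Sys.split (h : Sys al ds) {x y : D} (hx : x ∈ ds) (hy : y ∈ ds) (hne : x ≠ y) :
    Sys (spA al x y) (spD ds x y) := by
  have hxy : al x ≠ al y := fun e => hne (h.inj hx hy e)
  have key : ∀ d ∈ spD ds x y, spA al x y d ∈ spD ds x y ∧ spA al x y (spA al x y d) = d ∧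
      spA al x y d ≠ d := by
    intro d hd
    obtain ⟨h1, h2, h3⟩ := mem_spD.1 hd
    by_cases e1 : d = al x
    · have e2 : spA al x y d = al y := by
        unfold spA
        rw [if_pos e1]
      rw [e2]
      refine ⟨mem_spD.2 ⟨h.ne y hy, ?_, h.mem y hy⟩, ?_, ?_⟩
      · intro e3
        apply h1
        rw [e1, ← e3, h.inv y hy]
      · unfold spA
        rw [if_neg hxy.symm, if_pos rfl, e1]
      · rw [e1]
        exact hxy.symm
    · by_cases e3 : d = al y
      · have e2 : spA al x y d = al x := by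
          unfold spA
          rw [if_neg e1, if_pos e3]
        rw [e2]
        refine ⟨mem_spD.2 ⟨?_, h.ne x hx, h.mem x hx⟩, ?_, ?_⟩
        · intro e4
          apply h2
          rw [e3, ← e4, h.inv x hx]
        · unfold spA
          rw [if_pos rfl, e3]
        · rw [e3]
          exact hxy
      · have e2 : spA al x y d = al d := by
          unfold spA
          rw [if_neg e1, if_neg e3]
        rw [e2]
        refine ⟨mem_spD.2 ⟨?_, ?_, h.mem d h3⟩, ?_, h.ne d h3⟩
        · intro e4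
          apply e3
          rw [← e4, h.inv d h3]
        · intro e4
          apply e1
          rw [← e4, h.inv d h3]
        · unfold spA
          rw [if_neg (fun e => h2 (h.inj h3 hx e)), if_neg (fun e => h1 (h.inj h3 hy e)), h.inv d h3]
  exact ⟨fun d hd => (key d hd).1, fun d hd => (key d hd).2.1, fun d hd => (key d hd).2.2⟩

/-- the degree after splitting -/
theorem Sys.dct_split (h : Sys al ds) {x y : D} (hx : x ∈ ds) (hy : y ∈ ds) (hne : x ≠ y)
    (hn : nd x = nd y) (W : Finset N) :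
    dct (spA al x y) nd (spD ds x y) W +
      (if (nd (al x) ∈ W ∧ nd (al y) ∈ W ∧ nd x ∉ W) ∨
        (nd (al x) ∉ W ∧ nd (al y) ∉ W ∧ nd x ∈ W) then 2 else 0) = dct al nd ds W := by
  rw [dct_sum, dct_sum]
  set f : D → ℕ := fun d => if nd d ∈ W ∧ nd (al d) ∉ W then 1 else 0 with hf
  set g : D → ℕ := fun d => if nd d ∈ W ∧ nd (spA al x y d) ∉ W then 1 else 0 with hg
  have hyx : y ∈ ds.erase x := mem_erase.2 ⟨hne.symm, hy⟩
  have s1 : ∑ d ∈ ds, f d = f x + (f y + ∑ d ∈ spD ds x y, f d) := by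
    rw [← add_sum_erase ds f hx, ← add_sum_erase (ds.erase x) f hyx]
    rfl
  change ∑ d ∈ spD ds x y, g d + _ = ∑ d ∈ ds, f d
  by_cases hxy : al x = y
  · have hyx' : al y = x := by rw [← hxy, h.inv x hx]
    have s2 : ∑ d ∈ spD ds x y, g d = ∑ d ∈ spD ds x y, f d := by
      refine sum_congr rfl fun d hd => ?_
      obtain ⟨h1, h2, h3⟩ := mem_spD.1 hd
      have e2 : spA al x y d = al d := by
        unfold spA
        rw [if_neg (fun e => h1 (e.trans hxy)), if_neg (fun e => h2 (e.trans hyx'))]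
      simp only [hf, hg, e2]
    rw [s2, s1]
    have c1 : f x = 0 := by
      simp only [hf]
      rw [if_neg]
      rw [hxy, ← hn]
      tauto
    have c2 : f y = 0 := by
      simp only [hf]
      rw [if_neg]
      rw [hyx', ← hn]
      tauto
    rw [c1, c2, if_neg]
    · omega
    · rw [hxy, ← hn]
      tauto
  · have hyx' : al y ≠ x := fun e => hxy (by rw [← e, h.inv y hy])
    have hax : al x ∈ spD ds x y := mem_spD.2 ⟨hxy, h.ne x hx, h.mem x hx⟩
    have hxy' : al x ≠ al y := fun e => hne (h.inj hx hy e)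
    have hay : al y ∈ (spD ds x y).erase (al x) :=
      mem_erase.2 ⟨hxy'.symm, mem_spD.2 ⟨h.ne y hy, hyx', h.mem y hy⟩⟩
    have s2 : ∑ d ∈ spD ds x y, f d =
        f (al x) + (f (al y) + ∑ d ∈ ((spD ds x y).erase (al x)).erase (al y), f d) := by
      rw [← add_sum_erase _ f hax, ← add_sum_erase _ f hay]
    have s3 : ∑ d ∈ spD ds x y, g d =
        g (al x) + (g (al y) + ∑ d ∈ ((spD ds x y).erase (al x)).erase (al y), g d) := by
      rw [← add_sum_erase _ g hax, ← add_sum_erase _ g hay]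
    have s4 : ∑ d ∈ ((spD ds x y).erase (al x)).erase (al y), g d =
        ∑ d ∈ ((spD ds x y).erase (al x)).erase (al y), f d := by
      refine sum_congr rfl fun d hd => ?_
      rw [mem_erase, mem_erase] at hd
      have e2 : spA al x y d = al d := by
        unfold spA
        rw [if_neg hd.2.1, if_neg hd.1]
      simp only [hf, hg, e2]
    rw [s1, s2, s3, s4]
    have v1 : g (al x) = if nd (al x) ∈ W ∧ nd (al y) ∉ W then 1 else 0 := by
      simp only [hg, spA, if_true]
    have v2 : g (al y) = if nd (al y) ∈ W ∧ nd (al x) ∉ W then 1 else 0 := by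
      simp only [hg, spA, if_neg hxy'.symm, if_true]
    have v3 : f (al x) = if nd (al x) ∈ W ∧ nd x ∉ W then 1 else 0 := by
      simp only [hf, h.inv x hx]
    have v4 : f (al y) = if nd (al y) ∈ W ∧ nd x ∉ W then 1 else 0 := by
      simp only [hf, h.inv y hy, hn]
    have v5 : f x = if nd x ∈ W ∧ nd (al x) ∉ W then 1 else 0 := rfl
    have v6 : f y = if nd x ∈ W ∧ nd (al y) ∉ W then 1 else 0 := by
      simp only [hf, hn]
    rw [v1, v2, v3, v4, v5, v6]
    by_cases a : nd (al x) ∈ W <;> by_cases b : nd (al y) ∈ W <;> by_cases c : nd x ∈ W <;>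
      simp [a, b, c] <;> omega

/-- hypotheses: odd sets have degree at least 5, `q` is connected to an odd node -/
structure Hyp (al : D → D) (ds : Finset D) (nd : D → N) (q : N) : Prop where
  five : ∀ W : Finset N, Odd (dct al nd ds W) → 5 ≤ dct al nd ds W
  con : ∀ X : Finset N, q ∈ X → dct al nd ds X = 0 → ∃ v ∈ X, v ≠ q ∧ Odd (dct al nd ds {v})

theorem mem_cut {W : Finset N} {d : D} (hd : d ∈ ds) (h1 : nd d ∈ W) (h2 : nd (al d) ∉ W) :
    1 ≤ dct al nd ds W := by
  unfold dct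
  exact card_pos.2 ⟨d, mem_filter.2 ⟨hd, h1, h2⟩⟩

theorem cut_pair {X : Finset N} (h2 : dct al nd ds X = 2) {a b : D} (ha : a ∈ ds) (hb : b ∈ ds)
    (hab : a ≠ b) (a1 : nd a ∈ X) (a2 : nd (al a) ∉ X) (b1 : nd b ∈ X) (b2 : nd (al b) ∉ X) :
    ∀ d ∈ ds, nd d ∈ X → nd (al d) ∉ X → d = a ∨ d = b := by
  intro d hd d1 d2
  by_contra hn
  have h3 : ({d, a, b} : Finset D) ⊆ ds.filter fun d => nd d ∈ X ∧ nd (al d) ∉ X := by
    intro e he
    rw [mem_insert, mem_insert, mem_singleton] at he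
    rcases he with rfl | rfl | rfl
    · exact mem_filter.2 ⟨hd, d1, d2⟩
    · exact mem_filter.2 ⟨ha, a1, a2⟩
    · exact mem_filter.2 ⟨hb, b1, b2⟩
  have h4 := card_le_card h3
  have h5 : ({d, a, b} : Finset D).card = 3 := by
    rw [card_insert_of_notMem, card_insert_of_notMem, card_singleton]
    · rwa [mem_singleton]
    · rw [mem_insert, mem_singleton]
      tauto
  unfold dct at h2
  omega

theorem cut_one {X : Finset N} {a : D} (ha : a ∈ ds) (a1 : nd a ∈ X) (a2 : nd (al a) ∉ X)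
    (h : ∀ d ∈ ds, nd d ∈ X → nd (al d) ∉ X → d = a) : dct al nd ds X = 1 := by
  unfold dct
  rw [card_eq_one]
  refine ⟨a, ?_⟩
  ext d
  rw [mem_filter, mem_singleton]
  constructor
  · rintro ⟨h1, h2, h3⟩
    exact h d h1 h2 h3
  · rintro rfl
    exact ⟨ha, a1, a2⟩

/-- the pair is blocked by an odd 5-set -/
def Blk5 (al : D → D) (ds : Finset D) (nd : D → N) (E : N) (x y : D) : Prop :=
  ∃ W : Finset N, dct al nd ds W = 5 ∧ E ∉ W ∧ nd (al x) ∈ W ∧ nd (al y) ∈ W

theorem five_split (h : Sys al ds) {q : N} (hH : Hyp al ds nd q) {E : N} {x y : D} (hx : x ∈ ds)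
    (hy : y ∈ ds) (hne : x ≠ y) (nx : nd x = E) (ny : nd y = E) (hb : ¬ Blk5 al ds nd E x y) :
    ∀ W : Finset N, Odd (dct (spA al x y) nd (spD ds x y) W) →
      5 ≤ dct (spA al x y) nd (spD ds x y) W := by
  intro W ho
  have h1 := h.dct_split hx hy hne (nx.trans ny.symm) W
  rw [nx] at h1
  by_cases hc : (nd (al x) ∈ W ∧ nd (al y) ∈ W ∧ E ∉ W) ∨
      (nd (al x) ∉ W ∧ nd (al y) ∉ W ∧ E ∈ W)
  · rw [if_pos hc] at h1
    have h2 : Odd (dct al nd ds W) := by
      rw [← h1]
      exact ho.add_even even_two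
    have h3 := hH.five W h2
    by_contra h4
    have h5 : dct al nd ds W = 5 := by
      obtain ⟨k, hk⟩ := h2
      omega
    apply hb
    rcases hc with ⟨c1, c2, c3⟩ | ⟨c1, c2, c3⟩
    · exact ⟨W, h5, c3, c1, c2⟩
    · refine ⟨(ds.image nd) \ W, by rw [h.compl, h5], fun h => (mem_sdiff.1 h).2 c3,
        mem_sdiff.2 ⟨mem_image_of_mem _ (h.mem x hx), c1⟩,
        mem_sdiff.2 ⟨mem_image_of_mem _ (h.mem y hy), c2⟩⟩
  · rw [if_neg hc, add_zero] at h1
    rw [h1] at ho ⊢
    exact hH.five W ho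

theorem odd_split (h : Sys al ds) {x y : D} (hx : x ∈ ds) (hy : y ∈ ds) (hne : x ≠ y)
    (hn : nd x = nd y) (W : Finset N) :
    Odd (dct (spA al x y) nd (spD ds x y) W) ↔ Odd (dct al nd ds W) := by
  have h1 := h.dct_split hx hy hne hn W
  rw [← h1]
  split_ifs
  · rw [Nat.odd_add]
    simp
  · rw [add_zero]

/-- a cut off set -/
structure Off (al : D → D) (ds : Finset D) (nd : D → N) (q E : N) (x y : D) (X : Finset N) :
    Prop where
  mem : q ∈ X
  even : ∀ v ∈ X, Even (dct al nd ds {v})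
  two : dct al nd ds X = 2
  alt : (nd (al x) ∈ X ∧ nd (al y) ∈ X ∧ E ∉ X) ∨ (nd (al x) ∉ X ∧ nd (al y) ∉ X ∧ E ∈ X)

theorem con_split (h : Sys al ds) {q : N} (hH : Hyp al ds nd q) {E : N} {x y : D} (hx : x ∈ ds)
    (hy : y ∈ ds) (hne : x ≠ y) (nx : nd x = E) (ny : nd y = E)
    (hb : ∀ X, ¬ Off al ds nd q E x y X) :
    ∀ X : Finset N, q ∈ X → dct (spA al x y) nd (spD ds x y) X = 0 →
      ∃ v ∈ X, v ≠ q ∧ Odd (dct (spA al x y) nd (spD ds x y) {v}) := by
  intro X hq h0
  have h' := h.split hx hy hne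
  by_contra hn
  have hev : ∀ v ∈ X, v ≠ q → Even (dct al nd ds {v}) := by
    intro v hv hvq
    rw [← Nat.not_odd_iff_even]
    intro ho
    exact hn ⟨v, hv, hvq, (odd_split h hx hy hne (nx.trans ny.symm) {v}).2 ho⟩
  have hq' : Even (dct al nd ds {q}) := by
    by_contra ho
    rw [Nat.not_even_iff_odd, ← odd_split h hx hy hne (nx.trans ny.symm) {q}] at ho
    have h1 := h'.parity (nd := nd) X
    rw [h0, Nat.cast_zero, ← sum_erase_add _ _ hq, sum_eq_zero, zero_add, odd_iff_zmod.1 ho] at h1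
    · exact absurd h1 (by decide)
    · intro v hv
      rw [mem_erase] at hv
      rw [← even_iff_zmod, ← Nat.not_odd_iff_even, odd_split h hx hy hne (nx.trans ny.symm) {v},
        Nat.not_odd_iff_even]
      exact hev v hv.2 hv.1
  have hall : ∀ v ∈ X, Even (dct al nd ds {v}) := by
    intro v hv
    by_cases hvq : v = q
    · rw [hvq]
      exact hq'
    · exact hev v hv hvq
  have h1 := h.dct_split hx hy hne (nx.trans ny.symm) X
  rw [h0, zero_add, nx] at h1
  by_cases hc : (nd (al x) ∈ X ∧ nd (al y) ∈ X ∧ E ∉ X) ∨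
      (nd (al x) ∉ X ∧ nd (al y) ∉ X ∧ E ∈ X)
  · rw [if_pos hc] at h1
    exact hb X ⟨hq, hall, h1.symm, hc⟩
  · rw [if_neg hc] at h1
    obtain ⟨v, hv, hvq, ho⟩ := hH.con X hq h1.symm
    exact (Nat.not_odd_iff_even.2 (hall v hv)) ho

namespace Off

variable {q E : N} {x y w : D} {X X' : Finset N}

/-- the boundary of a cut off set -/
theorem bd1 (h : Sys al ds) (ho : Off al ds nd q E x y X) (hx : x ∈ ds) (hy : y ∈ ds) (hne : x ≠ y)
    (nx : nd x = E) (ny : nd y = E) (hE : E ∉ X) :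
    nd (al x) ∈ X ∧ nd (al y) ∈ X ∧
      ∀ d ∈ ds, nd d ∈ X → nd (al d) ∉ X → d = al x ∨ d = al y := by
  rcases ho.alt with ⟨c1, c2, c3⟩ | ⟨c1, c2, c3⟩
  · refine ⟨c1, c2, cut_pair ho.two (h.mem x hx) (h.mem y hy) (fun e => hne (h.inj hx hy e)) c1 ?_
      c2 ?_⟩
    · rw [h.inv x hx, nx]
      exact hE
    · rw [h.inv y hy, ny]
      exact hE
  · exact absurd c3 hE

theorem bd2 (ho : Off al ds nd q E x y X) (hx : x ∈ ds) (hy : y ∈ ds) (hne : x ≠ y)
    (nx : nd x = E) (ny : nd y = E) (hE : E ∈ X) :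
    nd (al x) ∉ X ∧ nd (al y) ∉ X ∧
      ∀ d ∈ ds, nd d ∈ X → nd (al d) ∉ X → d = x ∨ d = y := by
  rcases ho.alt with ⟨c1, c2, c3⟩ | ⟨c1, c2, c3⟩
  · exact absurd hE c3
  · refine ⟨c1, c2, cut_pair ho.two hx hy hne ?_ c1 ?_ c2⟩
    · rw [nx]
      exact hE
    · rw [ny]
      exact hE

/-- the third dart does not cross, case `E ∉ X` -/
theorem third1 (h : Sys al ds) (ho : Off al ds nd q E x y X) (hx : x ∈ ds) (hy : y ∈ ds)
    (hne : x ≠ y) (nx : nd x = E) (ny : nd y = E) (hE : E ∉ X) (hw : w ∈ ds) (nw : nd w = E)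
    (wx : w ≠ x) (wy : w ≠ y) : nd (al w) ∉ X := by
  intro h1
  rcases (ho.bd1 h hx hy hne nx ny hE).2.2 (al w) (h.mem w hw) h1 (by
    rw [h.inv w hw, nw]
    exact hE) with h2 | h2
  · exact wx (h.inj hw hx h2)
  · exact wy (h.inj hw hy h2)

theorem third2 (ho : Off al ds nd q E x y X) (hx : x ∈ ds) (hy : y ∈ ds)
    (hne : x ≠ y) (nx : nd x = E) (ny : nd y = E) (hE : E ∈ X) (hw : w ∈ ds) (nw : nd w = E)
    (wx : w ≠ x) (wy : w ≠ y) : nd (al w) ∈ X := by
  by_contra h1
  rcases (ho.bd2 hx hy hne nx ny hE).2.2 w hw (by rw [nw]; exact hE) h1 with h2 | h2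
  · exact wx h2
  · exact wy h2

/-- (a): `(x, w)` is not blocked by an odd 5-set -/
theorem noblk (h : Sys al ds) (hH : Hyp al ds nd q) (ho : Off al ds nd q E x y X) (hx : x ∈ ds)
    (hy : y ∈ ds) (hne : x ≠ y) (nx : nd x = E) (ny : nd y = E) (hw : w ∈ ds) (nw : nd w = E)
    (wx : w ≠ x) (wy : w ≠ y) : ¬ Blk5 al ds nd E x w := by
  rintro ⟨W, h5, hEW, hxW, hwW⟩
  have hWX : Even (dct al nd ds (W ∩ X)) := h.even_of fun v hv => ho.even v (mem_inter.1 hv).2
  by_cases hE : E ∈ X
  · have b := ho.bd2 hx hy hne nx ny hE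
    have hwX := ho.third2 hx hy hne nx ny hE hw nw wx wy
    have h1 := h.sub (nd := nd) W X
    have h2 : 1 ≤ (ds.filter fun d => nd d ∈ W ∧ nd d ∉ X ∧ nd (al d) ∈ X ∧ nd (al d) ∉ W).card := by
      refine card_pos.2 ⟨al x, mem_filter.2 ⟨h.mem x hx, hxW, b.1, ?_, ?_⟩⟩
      · rw [h.inv x hx, nx]
        exact hE
      · rw [h.inv x hx, nx]
        exact hEW
    have h3 : 1 ≤ dct al nd ds (W ∩ X) := by
      refine mem_cut (h.mem w hw) (mem_inter.2 ⟨hwW, hwX⟩) ?_
      rw [h.inv w hw, nw]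
      exact fun h => hEW (mem_inter.1 h).1
    have h4 : Odd (dct al nd ds (W ∪ X)) := by
      have h6 := ho.two
      rw [Nat.odd_iff]
      rw [Nat.even_iff] at hWX
      omega
    have h5' := hH.five _ h4
    have h6 := ho.two
    omega
  · have b := ho.bd1 h hx hy hne nx ny hE
    have h1 := h.posi (nd := nd) W X
    have h6 := ho.two
    have h7 := h.par_sdiff (nd := nd) W X
    have h4 : Odd (dct al nd ds (W \ X)) := by
      rw [Nat.odd_iff]
      rw [Nat.even_iff] at hWX
      omega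
    have h5' := hH.five _ h4
    have hxm : al x ∈ ds.filter fun d => nd d ∈ W ∧ nd d ∈ X ∧ nd (al d) ∉ X ∧ nd (al d) ∉ W := by
      refine mem_filter.2 ⟨h.mem x hx, hxW, b.1, ?_, ?_⟩
      · rw [h.inv x hx, nx]
        exact hE
      · rw [h.inv x hx, nx]
        exact hEW
    by_cases hyW : nd (al y) ∈ W
    · have hym : al y ∈ ds.filter fun d => nd d ∈ W ∧ nd d ∈ X ∧ nd (al d) ∉ X ∧ nd (al d) ∉ W := by
        refine mem_filter.2 ⟨h.mem y hy, hyW, b.2.1, ?_, ?_⟩
        · rw [h.inv y hy, ny]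
          exact hE
        · rw [h.inv y hy, ny]
          exact hEW
      have h8 : 2 ≤ (ds.filter fun d => nd d ∈ W ∧ nd d ∈ X ∧ nd (al d) ∉ X ∧ nd (al d) ∉ W).card :=
        Finset.one_lt_card.2 ⟨al x, hxm, al y, hym, fun e => hne (h.inj hx hy e)⟩
      omega
    · have h8 : 1 ≤ (ds.filter fun d => nd d ∈ W ∧ nd d ∈ X ∧ nd (al d) ∉ X ∧ nd (al d) ∉ W).card :=
        card_pos.2 ⟨al x, hxm⟩
      have h9 : 1 ≤ dct al nd ds (X \ W) := by
        refine mem_cut (h.mem y hy) (mem_sdiff.2 ⟨b.2.1, hyW⟩) ?_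
        rw [h.inv y hy, ny]
        exact fun h => hE (mem_sdiff.1 h).1
      omega

/-- (b): `(x, w)` does not cut off -/
theorem nooff (h : Sys al ds) (ho : Off al ds nd q E x y X) (hx : x ∈ ds)
    (hy : y ∈ ds) (hne : x ≠ y) (nx : nd x = E) (ny : nd y = E) (hw : w ∈ ds) (nw : nd w = E)
    (wx : w ≠ x) (wy : w ≠ y) (ho' : Off al ds nd q E x w X') : False := by
  have bad : ∀ (Y : Finset N) (a : D), (∀ v ∈ Y, Even (dct al nd ds {v})) → a ∈ ds → nd a ∈ Y →
      nd (al a) ∉ Y → (∀ d ∈ ds, nd d ∈ Y → nd (al d) ∉ Y → d = a) → False := by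
    intro Y a h1 h2 h3 h4 h5
    have h6 := cut_one h2 h3 h4 h5
    have h7 := h.even_of h1
    rw [h6] at h7
    exact absurd h7 (by decide)
  by_cases hE : E ∈ X
  · have b := ho.bd2 hx hy hne nx ny hE
    have tw := ho.third2 hx hy hne nx ny hE hw nw wx wy
    by_cases hE' : E ∈ X'
    · have b' := ho'.bd2 hx hw wx.symm nx nw hE'
      have ty := ho'.third2 hx hw wx.symm nx nw hE' hy ny hne.symm wy.symm
      refine bad (X ∪ X') x (fun v hv => ?_) hx ?_ ?_ fun d hd d1 d2 => ?_
      · rcases mem_union.1 hv with hv | hv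
        · exact ho.even v hv
        · exact ho'.even v hv
      · rw [nx]
        exact mem_union_left _ hE
      · rw [mem_union]
        rintro (h1 | h1)
        · exact b.1 h1
        · exact b'.1 h1
      · rw [mem_union, not_or] at d2
        rcases mem_union.1 d1 with d1 | d1
        · rcases b.2.2 d hd d1 d2.1 with rfl | rfl
          · rfl
          · exact absurd ty d2.2
        · rcases b'.2.2 d hd d1 d2.2 with rfl | rfl
          · rfl
          · exact absurd tw d2.1
    · have b' := ho'.bd1 h hx hw wx.symm nx nw hE'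
      refine bad (X ∩ X') (al w) (fun v hv => ho.even v (mem_inter.1 hv).1) (h.mem w hw)
        (mem_inter.2 ⟨tw, b'.2.1⟩) ?_ fun d hd d1 d2 => ?_
      · rw [h.inv w hw, nw]
        exact fun h => hE' (mem_inter.1 h).2
      · rw [mem_inter] at d1 d2
        by_cases d3 : nd (al d) ∈ X
        · rcases b'.2.2 d hd d1.2 (fun h => d2 ⟨d3, h⟩) with rfl | rfl
          · exact absurd d1.1 b.1
          · rfl
        · exfalso
          rcases b.2.2 d hd d1.1 d3 with rfl | rfl
          · rw [nx] at d1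
            exact hE' d1.2
          · rw [ny] at d1
            exact hE' d1.2
  · have b := ho.bd1 h hx hy hne nx ny hE
    have tw := ho.third1 h hx hy hne nx ny hE hw nw wx wy
    by_cases hE' : E ∈ X'
    · have b' := ho'.bd2 hx hw wx.symm nx nw hE'
      have ty := ho'.third2 hx hw wx.symm nx nw hE' hy ny hne.symm wy.symm
      refine bad (X ∩ X') (al y) (fun v hv => ho.even v (mem_inter.1 hv).1) (h.mem y hy)
        (mem_inter.2 ⟨b.2.1, ty⟩) ?_ fun d hd d1 d2 => ?_
      · rw [h.inv y hy, ny]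
        exact fun h => hE (mem_inter.1 h).1
      · rw [mem_inter] at d1 d2
        by_cases d3 : nd (al d) ∈ X
        · exfalso
          rcases b'.2.2 d hd d1.2 (fun h => d2 ⟨d3, h⟩) with rfl | rfl
          · rw [nx] at d1
            exact hE d1.1
          · rw [nw] at d1
            exact hE d1.1
        · rcases b.2.2 d hd d1.1 d3 with rfl | rfl
          · exact absurd d1.2 b'.1
          · rfl
    · have b' := ho'.bd1 h hx hw wx.symm nx nw hE'
      have ty := ho'.third1 h hx hw wx.symm nx nw hE' hy ny hne.symm wy.symm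
      refine bad (X ∩ X') (al x) (fun v hv => ho.even v (mem_inter.1 hv).1) (h.mem x hx)
        (mem_inter.2 ⟨b.1, b'.1⟩) ?_ fun d hd d1 d2 => ?_
      · rw [h.inv x hx, nx]
        exact fun h => hE (mem_inter.1 h).1
      · rw [mem_inter] at d1 d2
        by_cases d3 : nd (al d) ∈ X
        · rcases b'.2.2 d hd d1.2 (fun h => d2 ⟨d3, h⟩) with rfl | rfl
          · rfl
          · exact absurd d1.1 tw
        · rcases b.2.2 d hd d1.1 d3 with rfl | rfl
          · rfl
          · exact absurd d1.2 ty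

/-- (c): there is a third dart -/
theorem exists_third (h : Sys al ds) (hH : Hyp al ds nd q) (hEq : E ≠ q)
    (hEv : Even (dct al nd ds {E})) (ho : Off al ds nd q E x y X) (hx : x ∈ ds)
    (hy : y ∈ ds) (hne : x ≠ y) (nx : nd x = E) (ny : nd y = E) :
    ∃ w ∈ ds, nd w = E ∧ w ≠ x ∧ w ≠ y := by
  by_contra hn
  have hall : ∀ d ∈ ds, nd d = E → d = x ∨ d = y := by
    intro d hd hdE
    by_contra h1
    rw [not_or] at h1
    exact hn ⟨d, hd, hdE, h1.1, h1.2⟩
  have zero : ∀ Y : Finset N, q ∈ Y → (∀ v ∈ Y, Even (dct al nd ds {v})) →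
      (∀ d ∈ ds, nd d ∈ Y → nd (al d) ∉ Y → False) → False := by
    intro Y h1 h2 h3
    have h4 : dct al nd ds Y = 0 := by
      unfold dct
      rw [card_eq_zero, filter_eq_empty_iff]
      rintro d hd ⟨h5, h6⟩
      exact h3 d hd h5 h6
    obtain ⟨v, hv, _, hvo⟩ := hH.con Y h1 h4
    exact (Nat.not_odd_iff_even.2 (h2 v hv)) hvo
  by_cases hE : E ∈ X
  · have b := ho.bd2 hx hy hne nx ny hE
    refine zero (X.erase E) (mem_erase.2 ⟨hEq.symm, ho.mem⟩)
      (fun v hv => ho.even v (mem_erase.1 hv).2) fun d hd d1 d2 => ?_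
    rw [mem_erase] at d1 d2
    by_cases d3 : nd (al d) = E
    · rcases hall _ (h.mem d hd) d3 with h1 | h1
      · apply b.1
        rw [← h1, h.inv d hd]
        exact d1.2
      · apply b.2.1
        rw [← h1, h.inv d hd]
        exact d1.2
    · rcases b.2.2 d hd d1.2 (fun h => d2 ⟨d3, h⟩) with rfl | rfl
      · exact d1.1 nx
      · exact d1.1 ny
  · have b := ho.bd1 h hx hy hne nx ny hE
    refine zero (insert E X) (mem_insert_of_mem ho.mem) (fun v hv => ?_) fun d hd d1 d2 => ?_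
    · rcases mem_insert.1 hv with rfl | hv
      · exact hEv
      · exact ho.even v hv
    · rw [mem_insert, not_or] at d2
      rcases mem_insert.1 d1 with d1 | d1
      · rcases hall d hd d1 with rfl | rfl
        · exact d2.2 b.1
        · exact d2.2 b.2.1
      · rcases b.2.2 d hd d1 d2.2 with rfl | rfl
        · apply d2.1
          rw [h.inv x hx, nx]
        · apply d2.1
          rw [h.inv y hy, ny]

end Off

end KT
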