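import Pool.Agent.Lib.KT.Pair

/-! # Kill trails: the theorem -/

set_option autoImplicit false

namespace KT

open Finset Classical ThmQ

variable {N D : Type*} {nd : D → N}

/-- consecutive darts of a kill trail: `a` arrives at an even node, `b` leaves it, opposite colours -/
def Nx (al0 : D → D) (ds0 : Finset D) (nd : D → N) (q : N) (col : D → Bool) (a b : D) : Prop :=
  nd (al0 a) = nd b ∧ Even (dct al0 nd ds0 {nd b}) ∧ nd b ≠ q ∧ col (al0 a) ≠ col b

/-- the edges of the system `(al, ds)` are trails of the system `(al0, ds0)` -/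
structure Lf (al0 : D → D) (ds0 : Finset D) (nd : D → N) (q : N) (col : D → Bool)
    (al : D → D) (ds : Finset D) (T : D → List D) : Prop where
  sub : ∀ d ∈ ds, ∀ e ∈ T d, e ∈ ds0
  head : ∀ d ∈ ds, (T d).head? = some d
  last : ∀ d ∈ ds, ∀ e ∈ (T d).getLast?, al0 e = al d
  chain : ∀ d ∈ ds, (T d).IsChain (Nx al0 ds0 nd q col)
  rev : ∀ d ∈ ds, T (al d) = ((T d).map al0).reverse
  nod : ∀ d ∈ ds, (T d).Nodup
  dis : ∀ d ∈ ds, ∀ d' ∈ ds, ∀ e, e ∈ T d → e ∈ T d' → d = d'

theorem Lf.init {al0 : D → D} {ds0 : Finset D} {q : N} {col : D → Bool} :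
    Lf al0 ds0 nd q col al0 ds0 (fun d => [d]) where
  sub := by
    intro d hd e he
    rw [List.mem_singleton] at he
    rw [he]
    exact hd
  head := fun _ _ => rfl
  last := by
    intro d _ e he
    simp at he
    rw [he]
  chain := fun d _ => List.isChain_singleton d
  rev := fun _ _ => rfl
  nod := fun d _ => List.nodup_singleton d
  dis := by
    intro d _ d' _ e h1 h2
    rw [List.mem_singleton] at h1 h2
    rw [← h1, ← h2]

/-- the trails after splitting -/
noncomputable def spT (al : D → D) (T : D → List D) (x y d : D) : List D :=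
  if d = al x then T (al x) ++ T y else if d = al y then T (al y) ++ T x else T d

theorem Lf.split {al0 al : D → D} {ds0 ds : Finset D} {q : N} {col : D → Bool} {T : D → List D}
    (h : Sys al ds) (hL : Lf al0 ds0 nd q col al ds T) {x y : D} (hx : x ∈ ds) (hy : y ∈ ds)
    (hne : x ≠ y) (hn : nd x = nd y) (hEv : Even (dct al0 nd ds0 {nd x})) (hq : nd x ≠ q)
    (hc : col x ≠ col y) :
    Lf al0 ds0 nd q col (spA al x y) (spD ds x y) (spT al T x y) := by
  have hax := h.mem x hx
  have hay := h.mem y hy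
  have hxy : al x ≠ al y := fun e => hne (h.inj hx hy e)
  have hTy : T y ≠ [] := fun e => by
    have := hL.head y hy
    rw [e] at this
    simp at this
  have hTx : T x ≠ [] := fun e => by
    have := hL.head x hx
    rw [e] at this
    simp at this
  have hTax : T (al x) ≠ [] := fun e => by
    have := hL.head _ hax
    rw [e] at this
    simp at this
  have hTay : T (al y) ≠ [] := fun e => by
    have := hL.head _ hay
    rw [e] at this
    simp at this
  -- the three cases
  have cases3 : ∀ d ∈ spD ds x y, (d = al x ∧ spT al T x y d = T (al x) ++ T y ∧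
      spA al x y d = al y ∧ al x ≠ y) ∨ (d = al y ∧ spT al T x y d = T (al y) ++ T x ∧
      spA al x y d = al x ∧ al y ≠ x) ∨
      (d ≠ al x ∧ d ≠ al y ∧ spT al T x y d = T d ∧ spA al x y d = al d) := by
    intro d hd
    obtain ⟨h1, h2, h3⟩ := mem_spD.1 hd
    unfold spT spA
    by_cases e1 : d = al x
    · left
      rw [if_pos e1, if_pos e1]
      exact ⟨e1, rfl, rfl, fun e => h1 (e1.trans e)⟩
    · by_cases e2 : d = al y
      · right
        left
        rw [if_neg e1, if_neg e1, if_pos e2, if_pos e2]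
        exact ⟨e2, rfl, rfl, fun e => h2 (e2.trans e)⟩
      · right
        right
        rw [if_neg e1, if_neg e1, if_neg e2, if_neg e2]
        exact ⟨e1, e2, rfl, rfl⟩
  -- membership in the new trails
  have memT : ∀ d ∈ spD ds x y, ∀ e, e ∈ spT al T x y d →
      (∃ d' ∈ ds, e ∈ T d' ∧ (d' = d ∨ (d = al x ∧ d' = y) ∨ (d = al y ∧ d' = x))) := by
    intro d hd e he
    obtain ⟨h1, h2, h3⟩ := mem_spD.1 hd
    rcases cases3 d hd with ⟨k1, k2, _⟩ | ⟨k1, k2, _⟩ | ⟨k1, k2, k3, _⟩
    · rw [k2, List.mem_append] at he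
      rcases he with he | he
      · exact ⟨al x, hax, he, Or.inl k1.symm⟩
      · exact ⟨y, hy, he, Or.inr (Or.inl ⟨k1, rfl⟩)⟩
    · rw [k2, List.mem_append] at he
      rcases he with he | he
      · exact ⟨al y, hay, he, Or.inl k1.symm⟩
      · exact ⟨x, hx, he, Or.inr (Or.inr ⟨k1, rfl⟩)⟩
    · rw [k3] at he
      exact ⟨d, h3, he, Or.inl rfl⟩
  refine ⟨?_, ?_, ?_, ?_, ?_, ?_, ?_⟩
  · intro d hd e he
    obtain ⟨d', hd', he', _⟩ := memT d hd e he
    exact hL.sub d' hd' e he'
  · intro d hd
    obtain ⟨h1, h2, h3⟩ := mem_spD.1 hd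
    rcases cases3 d hd with ⟨k1, k2, _⟩ | ⟨k1, k2, _⟩ | ⟨k1, k2, k3, _⟩
    · rw [k2, List.head?_append, hL.head _ hax, k1]
      rfl
    · rw [k2, List.head?_append, hL.head _ hay, k1]
      rfl
    · rw [k3]
      exact hL.head d h3
  · intro d hd e he
    obtain ⟨h1, h2, h3⟩ := mem_spD.1 hd
    rcases cases3 d hd with ⟨k1, k2, k3, _⟩ | ⟨k1, k2, k3, _⟩ | ⟨k1, k2, k3, k4⟩
    · rw [k2, List.getLast?_append, List.getLast?_eq_some_getLast hTy] at he
      rw [k3]
      refine hL.last y hy e ?_
      rw [List.getLast?_eq_some_getLast hTy]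
      exact he
    · rw [k2, List.getLast?_append, List.getLast?_eq_some_getLast hTx] at he
      rw [k3]
      refine hL.last x hx e ?_
      rw [List.getLast?_eq_some_getLast hTx]
      exact he
    · rw [k3] at he
      rw [k4]
      exact hL.last d h3 e he
  · intro d hd
    obtain ⟨h1, h2, h3⟩ := mem_spD.1 hd
    rcases cases3 d hd with ⟨k1, k2, k3, _⟩ | ⟨k1, k2, k3, _⟩ | ⟨k1, k2, k3, k4⟩
    · rw [k2]
      refine List.IsChain.append (hL.chain _ hax) (hL.chain _ hy) fun a ha b hb => ?_
      have ha' := hL.last _ hax a ha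
      rw [h.inv x hx] at ha'
      rw [hL.head y hy] at hb
      have hb' : b = y := (Option.mem_some_iff.1 hb).symm
      rw [hb']
      refine ⟨?_, ?_, ?_, ?_⟩
      · rw [ha', hn]
      · rw [← hn]
        exact hEv
      · rw [← hn]
        exact hq
      · rw [ha']
        exact hc
    · rw [k2]
      refine List.IsChain.append (hL.chain _ hay) (hL.chain _ hx) fun a ha b hb => ?_
      have ha' := hL.last _ hay a ha
      rw [h.inv y hy] at ha'
      rw [hL.head x hx] at hb
      have hb' : b = x := (Option.mem_some_iff.1 hb).symm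
      rw [hb']
      refine ⟨?_, hEv, hq, ?_⟩
      · rw [ha', hn]
      · rw [ha']
        exact hc.symm
    · rw [k3]
      exact hL.chain d h3
  · intro d hd
    obtain ⟨h1, h2, h3⟩ := mem_spD.1 hd
    have hd' := (h.split hx hy hne).mem d hd
    rcases cases3 d hd with ⟨k1, k2, k3, k5⟩ | ⟨k1, k2, k3, k5⟩ | ⟨k1, k2, k3, k4⟩
    · rw [k2, k3, List.map_append, List.reverse_append, ← hL.rev y hy, ← hL.rev _ hax, h.inv x hx]
      unfold spT
      rw [if_neg hxy.symm, if_pos rfl]
    · rw [k2, k3, List.map_append, List.reverse_append, ← hL.rev x hx, ← hL.rev _ hay, h.inv y hy]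
      unfold spT
      rw [if_pos rfl]
    · rw [k3, k4, ← hL.rev d h3]
      unfold spT
      rw [if_neg (fun e => h2 (h.inj h3 hx e)), if_neg (fun e => h1 (h.inj h3 hy e))]
  · intro d hd
    obtain ⟨h1, h2, h3⟩ := mem_spD.1 hd
    rcases cases3 d hd with ⟨k1, k2, k3, k5⟩ | ⟨k1, k2, k3, k5⟩ | ⟨k1, k2, k3, k4⟩
    · rw [k2, List.nodup_append]
      refine ⟨hL.nod _ hax, hL.nod _ hy, fun a ha b hb hab => ?_⟩
      rw [hab] at ha
      exact k5 (hL.dis _ hax _ hy b ha hb)
    · rw [k2, List.nodup_append]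
      refine ⟨hL.nod _ hay, hL.nod _ hx, fun a ha b hb hab => ?_⟩
      rw [hab] at ha
      exact k5 (hL.dis _ hay _ hx b ha hb)
    · rw [k3]
      exact hL.nod d h3
  · intro d hd d' hd' e he he'
    obtain ⟨h1, h2, h3⟩ := mem_spD.1 hd
    obtain ⟨h1', h2', h3'⟩ := mem_spD.1 hd'
    obtain ⟨a, ha, hea, hda⟩ := memT d hd e he
    obtain ⟨b, hb, heb, hdb⟩ := memT d' hd' e he'
    have hab := hL.dis a ha b hb e hea heb
    rcases hda with rfl | ⟨rfl, rfl⟩ | ⟨rfl, rfl⟩
    · rcases hdb with rfl | ⟨rfl, rfl⟩ | ⟨rfl, rfl⟩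
      · exact hab
      · exact absurd hab h1
      · exact absurd hab h2
    · rcases hdb with rfl | ⟨rfl, rfl⟩ | ⟨rfl, rfl⟩
      · exact absurd hab.symm h1'
      · rfl
      · exact absurd hab.symm hne
    · rcases hdb with rfl | ⟨rfl, rfl⟩ | ⟨rfl, rfl⟩
      · exact absurd hab.symm h2'
      · exact absurd hab hne
      · rfl

/-- a trail from `W` to the outside crosses `W` -/
theorem cross_list {al0 : D → D} {ds0 : Finset D} {q : N} {col : D → Bool} {W : Finset N} :
    ∀ (l : List D) (d : D), (d :: l).IsChain (Nx al0 ds0 nd q col) → nd d ∈ W →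
      (∀ e ∈ (d :: l).getLast?, nd (al0 e) ∉ W) → ∃ f ∈ d :: l, nd f ∈ W ∧ nd (al0 f) ∉ W := by
  intro l
  induction l with
  | nil =>
    intro d _ h1 h2
    exact ⟨d, List.mem_singleton_self d, h1, h2 d (by simp)⟩
  | cons b l ih =>
    intro d hc h1 h2
    by_cases h3 : nd (al0 d) ∈ W
    · rw [List.isChain_cons_cons] at hc
      obtain ⟨f, hf, h4⟩ := ih b hc.2 (by rw [← hc.1.1]; exact h3) (fun e he => h2 e (by
        rw [List.getLast?_cons_cons]
        exact he))
      exact ⟨f, List.mem_cons_of_mem _ hf, h4⟩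
    · exact ⟨d, List.mem_cons_self, h1, h3⟩

/-- the conclusion: a kill trail -/
structure Trail (al0 : D → D) (ds0 : Finset D) (nd : D → N) (q : N) (col : D → Bool)
    (P : List D) : Prop where
  sub : ∀ e ∈ P, e ∈ ds0
  nod : P.Nodup
  one : ∀ e ∈ P, al0 e ∉ P
  chain : P.IsChain (Nx al0 ds0 nd q col)
  start : ∃ d, P.head? = some d ∧ nd d = q
  land : ∃ e, P.getLast? = some e ∧ nd (al0 e) ≠ q ∧ Odd (dct al0 nd ds0 {nd (al0 e)})
  four : ∀ W : Finset N, Odd (dct al0 nd ds0 W) →
    4 ≤ (ds0.filter fun d => nd d ∈ W ∧ nd (al0 d) ∉ W ∧ d ∉ P ∧ al0 d ∉ P).card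

/-- the last step -/
theorem Lf.trail {al0 al : D → D} {ds0 ds : Finset D} {q : N} {col : D → Bool} {T : D → List D}
    (_h0 : Sys al0 ds0) (h : Sys al ds) (hL : Lf al0 ds0 nd q col al ds T) (hH : Hyp al ds nd q)
    (hpar : ∀ W, Odd (dct al nd ds W) ↔ Odd (dct al0 nd ds0 W))
    (hno : ∀ d ∈ ds, nd d ≠ q → ¬ Even (dct al0 nd ds0 {nd d})) :
    ∃ P, Trail al0 ds0 nd q col P := by
  -- a dart leaving `q`
  obtain ⟨j, hj, hjq, hjn⟩ : ∃ j ∈ ds, nd j = q ∧ nd (al j) ≠ q := by
    by_contra hn
    have h1 : dct al nd ds {q} = 0 := by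
      unfold dct
      rw [card_eq_zero, filter_eq_empty_iff]
      rintro d hd ⟨h2, h3⟩
      rw [mem_singleton] at h2 h3
      exact hn ⟨d, hd, h2, h3⟩
    obtain ⟨v, hv, hvq, _⟩ := hH.con {q} (mem_singleton_self q) h1
    exact hvq (mem_singleton.1 hv)
  have haj := h.mem j hj
  have hTne : ∀ d ∈ ds, T d ≠ [] := fun d hd e => by
    have := hL.head d hd
    rw [e] at this
    simp at this
  -- the reversed trail
  have hrev : ∀ d ∈ ds, ∀ e ∈ T d, al0 e ∈ T (al d) := by
    intro d hd e he
    rw [hL.rev d hd, List.mem_reverse]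
    exact List.mem_map_of_mem he
  have hone : ∀ d ∈ ds, ∀ e, al0 e ∈ T j → e ∈ T d → d = al j := by
    intro d hd e h1 h2
    have h3 := hrev d hd e h2
    have h4 := hL.dis _ (h.mem d hd) _ hj _ h3 h1
    rw [← h4, h.inv d hd]
  refine ⟨T j, hL.sub j hj, hL.nod j hj, ?_, hL.chain j hj, ⟨j, hL.head j hj, hjq⟩, ?_, ?_⟩
  · intro e he he'
    exact h.ne j hj (hone j hj e he' he).symm
  · obtain ⟨e, he⟩ : ∃ e, (T j).getLast? = some e :=
      ⟨_, List.getLast?_eq_some_getLast (hTne j hj)⟩
    have h1 := hL.last j hj e (by rw [he]; rfl)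
    refine ⟨e, he, ?_, ?_⟩
    · rw [h1]
      exact hjn
    · rw [h1, ← Nat.not_even_iff_odd]
      exact hno _ haj hjn
  · intro W hW
    have h5 := hH.five W ((hpar W).2 hW)
    set C := ds.filter fun d => nd d ∈ W ∧ nd (al d) ∉ W with hC
    have h5' : 5 ≤ C.card := h5
    have hCm : ∀ d, d ∈ C ↔ d ∈ ds ∧ nd d ∈ W ∧ nd (al d) ∉ W := fun d => by rw [hC, mem_filter]
    have h4 : 4 ≤ ((C.erase j).erase (al j)).card := by
      by_cases hjC : j ∈ C
      · have h6 : al j ∉ C.erase j := by
          intro h7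
          have h8 := ((hCm _).1 (mem_erase.1 h7).2).2.1
          exact ((hCm _).1 hjC).2.2 h8
        rw [erase_eq_of_notMem h6, card_erase_of_mem hjC]
        omega
      · rw [erase_eq_of_notMem hjC]
        have := pred_card_le_card_erase (s := C) (a := al j)
        omega
    have hcr : ∀ d ∈ (C.erase j).erase (al j), ∃ f ∈ T d, nd f ∈ W ∧ nd (al0 f) ∉ W := by
      intro d hd
      rw [mem_erase, mem_erase, hCm] at hd
      obtain ⟨l, hl⟩ : ∃ l, T d = d :: l := by
        have h7 := hL.head d hd.2.2.1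
        cases hT : T d with
        | nil => rw [hT] at h7; simp at h7
        | cons a l =>
          rw [hT, List.head?_cons] at h7
          exact ⟨l, by rw [Option.some.inj h7]⟩
      have h8 := hL.chain d hd.2.2.1
      have h9 := hL.last d hd.2.2.1
      rw [hl] at h8 h9 ⊢
      refine cross_list l d h8 hd.2.2.2.1 fun e he => ?_
      rw [h9 e he]
      exact hd.2.2.2.2
    choose! φ hφ1 hφ2 using hcr
    refine h4.trans (card_le_card_of_injOn φ (fun d hd => ?_) (fun a ha b hb hab => ?_))
    · have hd' := hd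
      rw [mem_coe] at hd hd'
      rw [mem_erase, mem_erase, hCm] at hd
      rw [mem_coe, mem_filter]
      refine ⟨hL.sub d hd.2.2.1 _ (hφ1 d hd'), (hφ2 d hd').1, (hφ2 d hd').2, fun h6 => ?_,
        fun h6 => ?_⟩
      · exact hd.2.1 (hL.dis d hd.2.2.1 j hj _ (hφ1 d hd') h6)
      · exact hd.1 (hone d hd.2.2.1 _ h6 (hφ1 d hd'))
    · rw [mem_coe] at ha hb
      have ha' := ha
      have hb' := hb
      rw [mem_erase, mem_erase, hCm] at ha' hb'
      exact hL.dis a ha'.2.2.1 b hb'.2.2.1 (φ a) (hφ1 a ha) (hab ▸ hφ1 b hb)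

theorem trail_aux {al0 : D → D} {ds0 : Finset D} {q : N} {col : D → Bool} (h0 : Sys al0 ds0) :
    ∀ (n : ℕ) (al : D → D) (ds : Finset D) (T : D → List D), ds.card ≤ n → Sys al ds →
      Hyp al ds nd q → Lf al0 ds0 nd q col al ds T →
      (∀ W, Odd (dct al nd ds W) ↔ Odd (dct al0 nd ds0 W)) →
      (∀ E, E ≠ q → Even (dct al0 nd ds0 {E}) →
        (cdt ds nd col E true).card = (cdt ds nd col E false).card) →
      ∃ P, Trail al0 ds0 nd q col P := by
  intro n
  induction n with
  | zero =>
    intro al ds T hn h hH hL hpar _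
    have h1 : ds = ∅ := card_eq_zero.1 (by omega)
    refine hL.trail h0 h hH hpar fun d hd => ?_
    rw [h1] at hd
    exact absurd hd (notMem_empty _)
  | succ n ih =>
    intro al ds T hn h hH hL hpar hcol
    by_cases hE : ∃ d ∈ ds, nd d ≠ q ∧ Even (dct al0 nd ds0 {nd d})
    · obtain ⟨d0, hd0, hdq, hdE⟩ := hE
      have hev : Even (dct al nd ds {nd d0}) := by
        rw [← Nat.not_odd_iff_even, hpar, Nat.not_odd_iff_even]
        exact hdE
      obtain ⟨x, hx, y, hy, nx, ny, hc, hH'⟩ := exists_pair h hH hdq hev (hcol _ hdq hdE)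
        ⟨d0, hd0, rfl⟩
      have hne : x ≠ y := fun e => hc (by rw [e])
      have hn' : nd x = nd y := nx.trans ny.symm
      refine ih (spA al x y) (spD ds x y) (spT al T x y) ?_ (h.split hx hy hne) hH'
        (hL.split h hx hy hne hn' (by rw [nx]; exact hdE) (by rw [nx]; exact hdq) hc) ?_ ?_
      · have h1 : (spD ds x y).card < ds.card := by
          refine card_lt_card ⟨fun d hd => (mem_spD.1 hd).2.2, fun hs => ?_⟩
          exact (mem_spD.1 (hs hx)).2.1 rfl
        omega
      · intro W
        rw [odd_split h hx hy hne hn' W, hpar]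
      · intro E hEq hEE
        have h1 := hcol E hEq hEE
        by_cases hEx : E = nd x
        · have key : ∀ a b : D, a ∈ ds → nd a = E → b ≠ a → col b ≠ col a →
              (cdt ((ds.erase a).erase b) nd col E (col a)).card + 1 =
              (cdt ds nd col E (col a)).card := by
            intro a b ha na hba hcb
            have h2 : cdt ((ds.erase a).erase b) nd col E (col a) =
                (cdt ds nd col E (col a)).erase a := by
              ext d
              rw [mem_erase, mem_cdt, mem_cdt, mem_erase, mem_erase]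
              constructor
              · rintro ⟨⟨_, h3, h4⟩, h5⟩
                exact ⟨h3, h4, h5⟩
              · rintro ⟨h3, h4, h5⟩
                refine ⟨⟨fun e => hcb (by rw [← e, h5.2]), h3, h4⟩, h5⟩
            rw [h2, card_erase_of_mem (mem_cdt.2 ⟨ha, na, rfl⟩)]
            have h3 : 0 < (cdt ds nd col E (col a)).card :=
              card_pos.2 ⟨a, mem_cdt.2 ⟨ha, na, rfl⟩⟩
            omega
          have k1 := key x y hx hEx.symm hne.symm hc.symm
          have k2 := key y x hy (by rw [← hn', hEx]) hne hc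
          rw [erase_right_comm] at k2
          have h2 : spD ds x y = (ds.erase x).erase y := rfl
          rw [h2]
          cases cx : col x <;> cases cy : col y <;> rw [cx] at k1 <;> rw [cy] at k2
          · rw [cx, cy] at hc
            exact absurd rfl hc
          · omega
          · omega
          · rw [cx, cy] at hc
            exact absurd rfl hc
        · have h2 : ∀ c, cdt (spD ds x y) nd col E c = cdt ds nd col E c := by
            intro c
            ext d
            rw [mem_cdt, mem_cdt, mem_spD]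
            constructor
            · rintro ⟨⟨_, _, h3⟩, h4⟩
              exact ⟨h3, h4⟩
            · rintro ⟨h3, h4⟩
              refine ⟨⟨fun e => hEx ?_, fun e => hEx ?_, h3⟩, h4⟩
              · rw [← h4.1, e, hn']
              · rw [← h4.1, e]
          rw [h2, h2]
          exact h1
    · refine hL.trail h0 h hH hpar fun d hd hdq hev => hE ⟨d, hd, hdq, hev⟩

/-- **KT5+** (helper93): all odd sets have degree at least 5, `q` is connected to an odd node, the
two colours are balanced at every even node other than `q`. Then there is a kill trail from `q` to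
an odd node such that every odd set keeps at least 4 live edges in its boundary. -/
theorem kill_trail {al : D → D} {ds : Finset D} {q : N} {col : D → Bool} (h : Sys al ds)
    (hH : Hyp al ds nd q) (hcol : ∀ E, E ≠ q → Even (dct al nd ds {E}) →
      (cdt ds nd col E true).card = (cdt ds nd col E false).card) :
    ∃ P, Trail al ds nd q col P :=
  trail_aux h ds.card al ds (fun d => [d]) le_rfl h hH Lf.init (fun _ => Iff.rfl) hcol

/-- if `q` is odd, connectivity is automatic -/
theorem hyp_of_odd {al : D → D} {ds : Finset D} {q : N} (h : Sys al ds)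
    (h5 : ∀ W : Finset N, Odd (dct al nd ds W) → 5 ≤ dct al nd ds W)
    (hq : Odd (dct al nd ds {q})) : Hyp al ds nd q where
  five := h5
  con := by
    intro X hqX h0
    by_contra hn
    have h1 := h.parity (nd := nd) X
    rw [h0, Nat.cast_zero, ← sum_erase_add _ _ hqX, sum_eq_zero, zero_add,
      odd_iff_zmod.1 hq] at h1
    · exact absurd h1 (by decide)
    · intro v hv
      rw [mem_erase] at hv
      rw [← even_iff_zmod, ← Nat.not_odd_iff_even]
      intro ho
      exact hn ⟨v, hv.2, hv.1, ho⟩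

end KT
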